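import Pool.Agent.H821R2.Lower
import Pool.Agent.H821R2.Upper

/-!
# The optimal pointwise pinching constant for positivity of the curvature operator

For every `d ≥ 4`, with `m = ⌊d / 2⌋`, we show `δ(d) = 2 (m - 1) / (2 m + 1)`.
-/

open Bundle Manifold ContDiff VectorField Module
open scoped Topology

noncomputable section

namespace Pool.Agent.H821R2

theorem forces_above {d : ℕ} (hd : 4 ≤ d) {δ : ℝ} (hδ1 : δ ≤ 1)
    (hδ : 2 * ((d / 2 : ℕ) - 1 : ℝ) / (2 * (d / 2 : ℕ) + 1) < δ) : Forces d δ := by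
  intro M _ _ _ _ _ g cov R hcov hR hp
  have hne : Nontrivial (EuclideanSpace ℝ (Fin d)) := by
    have : Nonempty (Fin d) := ⟨⟨0, by omega⟩⟩
    infer_instance
  have : LocallyCompactSpace M := ChartedSpace.locallyCompactSpace (EuclideanSpace ℝ (Fin d)) M
  have : SigmaCompactSpace M := sigmaCompactSpace_of_locallyCompact_secondCountable
  have hfin : finrank ℝ (EuclideanSpace ℝ (Fin d)) = d := finrank_euclideanSpace_fin
  refine forces_of_gt g cov R hcov hR hδ1 (by rw [hfin]; exact hd) ?_ hp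
  rw [hfin]
  exact hδ

end Pool.Agent.H821R2

open Pool.Agent.H821R2 in
/-- For every `d ≥ 4` the optimal pointwise pinching constant is
`δ(d) = 2 (m - 1) / (2 m + 1)`, where `m = ⌊d / 2⌋`. -/
theorem Pool.Agent.Results.MP_c9e91a_gt.PinchingConstant.result (d : ℕ) (hd : 4 ≤ d) :
    pinchingConstant d = 2 * ((d / 2 : ℕ) - 1 : ℝ) / (2 * (d / 2 : ℕ) + 1) := by
  have hm : (2 : ℝ) ≤ (d / 2 : ℕ) := by
    have : 2 ≤ d / 2 := by omega
    exact_mod_cast this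
  set c : ℝ := 2 * ((d / 2 : ℕ) - 1 : ℝ) / (2 * (d / 2 : ℕ) + 1) with hc
  have hc0 : 0 < c := by
    rw [hc]
    apply div_pos <;> linarith
  have hc1 : c < 1 := by
    rw [hc, div_lt_one (by linarith)]
    linarith
  have hmem : ∀ δ, c < δ → δ ≤ 1 → δ ∈ {δ : ℝ | 0 < δ ∧ δ ≤ 1 ∧ Forces d δ} :=
    fun δ h1 h2 => ⟨hc0.trans h1, h2, forces_above hd h2 h1⟩
  have hlb : ∀ δ ∈ {δ : ℝ | 0 < δ ∧ δ ≤ 1 ∧ Forces d δ}, c ≤ δ := by
    rintro δ ⟨h0, h1, hF⟩
    by_contra hlt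
    exact not_forces hd h0 (not_le.1 hlt) hF
  have hbdd : BddBelow {δ : ℝ | 0 < δ ∧ δ ≤ 1 ∧ Forces d δ} := ⟨c, hlb⟩
  apply le_antisymm
  · refine le_of_forall_gt_imp_ge_of_dense fun δ hδ => ?_
    rcases le_total δ 1 with h | h
    · exact csInf_le hbdd (hmem δ hδ h)
    · exact (csInf_le hbdd (hmem 1 hc1 le_rfl)).trans h
  · exact le_csInf ⟨1, hmem 1 hc1 le_rfl⟩ hlb
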